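import Pool.Agent.Helper98.EY.StmtsC

set_option autoImplicit false

namespace Pool.Agent.Helper98.EX

open Finset

/-! ### two-body states -/

/-- all sites `< b` full except `b-1-h`, all sites `≥ b` empty except `b+g` -/
def twog_E (N b h g : ℕ) : Cfg N := fun i => decide ((i.val < b ∧ i.val + h + 1 ≠ b) ∨ i.val = b + g)

theorem twog_occ {N b h g : ℕ} (i : ℕ) :
    occ (twog_E N b h g) i = true ↔ i < N ∧ ((i < b ∧ i + h + 1 ≠ b) ∨ i = b + g) := by
  unfold occ twog_E
  split_ifs with h1
  · simp [h1]
  · simp [h1]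

theorem twog_occ_false {N : ℕ} (η : Cfg N) (i : ℕ) : occ η i = false ↔ ¬ occ η i = true := by
  simp

theorem twog_swp {N x : ℕ} (hx1 : 1 ≤ x) (hxN : x < N) (η : Cfg N) (i : ℕ) :
    occ (swp x η) i = true ↔ (i = x ∧ occ η (x - 1) = true) ∨ (i ≠ x ∧ i + 1 = x ∧ occ η x = true) ∨
      (i ≠ x ∧ i + 1 ≠ x ∧ occ η i = true) := by
  rw [occ_swp hx1 hxN]
  split_ifs with h1 h2
  · simp [h1]
  · simp [h1, h2]
  · simp [h1, h2]

theorem twog_ext {N : ℕ} {η ξ : Cfg N} (h : ∀ i, i < N → (occ η i = true ↔ occ ξ i = true)) : η = ξ := by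
  apply cfg_ext
  intro i hi
  rw [Bool.eq_iff_iff]
  exact h i hi

theorem twog_R1 {N b h g x : ℕ} (hx1 : 1 ≤ x) (hxN : x < N) (hbg : b + g < N) (hh : h < b)
    (hx : x + h + 1 = b) : Rm x (twog_E N b h g) = twog_E N b (h + 1) g := by
  unfold Rm
  rw [if_pos]
  · apply twog_ext
    intro i hi
    rw [twog_swp hx1 hxN, twog_occ, twog_occ, twog_occ, twog_occ]
    omega
  · rw [twog_occ_false, twog_occ, twog_occ]
    omega

theorem twog_R2 {N b h g x : ℕ} (hx1 : 1 ≤ x) (hxN : x < N) (hbg : b + g < N) (hh : h < b)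
    (hx : x = b + g + 1) : Rm x (twog_E N b h g) = twog_E N b h (g + 1) := by
  unfold Rm
  rw [if_pos]
  · apply twog_ext
    intro i hi
    rw [twog_swp hx1 hxN, twog_occ, twog_occ, twog_occ, twog_occ]
    omega
  · rw [twog_occ_false, twog_occ, twog_occ]
    omega

theorem twog_R3 {N b h g x : ℕ} (hx1 : 1 ≤ x) (hxN : x < N) (hh : h < b)
    (h1 : x + h + 1 ≠ b) (h2 : x ≠ b + g + 1) (h3 : ¬ (x = b ∧ 0 < h ∧ 0 < g)) :
    Rm x (twog_E N b h g) = twog_E N b h g := by
  unfold Rm
  rw [if_neg]
  rw [twog_occ_false, twog_occ, twog_occ]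
  omega

theorem twog_L1 {N b h g x : ℕ} (hx1 : 1 ≤ x) (hxN : x < N) (hbg : b + g < N) (hh : h < b)
    (hx : x + h = b) (h0 : 0 < h) : Lm x (twog_E N b h g) = twog_E N b (h - 1) g := by
  unfold Lm
  rw [if_pos]
  · apply twog_ext
    intro i hi
    rw [twog_swp hx1 hxN, twog_occ, twog_occ, twog_occ, twog_occ]
    omega
  · rw [twog_occ_false, twog_occ, twog_occ]
    omega

theorem twog_L2 {N b h g x : ℕ} (hx1 : 1 ≤ x) (hxN : x < N) (hbg : b + g < N) (hh : h < b)
    (hx : x = b + g) (g0 : 0 < g) : Lm x (twog_E N b h g) = twog_E N b h (g - 1) := by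
  unfold Lm
  rw [if_pos]
  · apply twog_ext
    intro i hi
    rw [twog_swp hx1 hxN, twog_occ, twog_occ, twog_occ, twog_occ]
    omega
  · rw [twog_occ_false, twog_occ, twog_occ]
    omega

theorem twog_L3 {N b x : ℕ} (hx1 : 1 ≤ x) (hxN : x < N) (hb : 1 ≤ b)
    (hx : x = b) : Lm x (twog_E N b 0 0) = bot N b := by
  unfold Lm
  rw [if_pos]
  · apply twog_ext
    intro i hi
    rw [twog_swp hx1 hxN, twog_occ, twog_occ, twog_occ, occ_bot]
    omega
  · rw [twog_occ_false, twog_occ, twog_occ]
    omega

theorem twog_L4 {N b h g x : ℕ} (hx1 : 1 ≤ x) (hxN : x < N) (hbg : b + g < N) (hh : h < b)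
    (h1 : ¬ (x + h = b ∧ 0 < h)) (h2 : ¬ (x = b + g ∧ 0 < g)) (h3 : ¬ (x = b ∧ h = 0 ∧ g = 0)) :
    Lm x (twog_E N b h g) = twog_E N b h g := by
  unfold Lm
  rw [if_neg]
  rw [twog_occ_false, twog_occ, twog_occ]
  omega

theorem twog_B1 {N b x : ℕ} (hx1 : 1 ≤ x) (hxN : x < N) (hb : 1 ≤ b) (hx : x = b) :
    Rm x (bot N b) = twog_E N b 0 0 := by
  unfold Rm
  rw [if_pos]
  · apply twog_ext
    intro i hi
    rw [twog_swp hx1 hxN, twog_occ, occ_bot, occ_bot, occ_bot]
    omega
  · rw [twog_occ_false, occ_bot, occ_bot]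
    omega

theorem twog_B2 {N b x : ℕ} (hx : x ≠ b) : Rm x (bot N b) = bot N b := by
  unfold Rm
  rw [if_neg]
  rw [twog_occ_false, occ_bot, occ_bot]
  omega

theorem twog_B3 {N b x : ℕ} : Lm x (bot N b) = bot N b := by
  unfold Lm
  rw [if_neg]
  rw [twog_occ_false, occ_bot, occ_bot]
  omega

/-! ### one step -/

theorem twog_step_bot {N b : ℕ} (r l : ℕ → ℝ) (hb1 : 1 ≤ b) (hbN : b < N) (f : Cfg N → ℝ) :
    stp r l (full N) f (bot N b) = f (bot N b) +
      r b * (f (twog_E N b 0 0) - f (bot N b)) / (2 * N) := by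
  rw [stp_open]
  congr 2
  rw [Finset.sum_eq_single b]
  · rw [twog_B1 hb1 hbN hb1 rfl, twog_B3]; ring
  · intro x _ hx
    rw [twog_B2 hx, twog_B3]; ring
  · intro h
    exfalso; apply h
    rw [full, Finset.mem_Ico]
    exact ⟨hb1, hbN⟩

theorem twog_step {N b h g : ℕ} (r l : ℕ → ℝ) (hb1 : 1 ≤ b) (hh : h < b) (hbg : b + g < N)
    (f : Cfg N → ℝ) :
    stp r l (full N) f (twog_E N b h g) = f (twog_E N b h g) + (
      (if h + 1 < b then r (b - 1 - h) * (f (twog_E N b (h + 1) g) - f (twog_E N b h g)) else 0) +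
      (if b + g + 1 < N then r (b + g + 1) * (f (twog_E N b h (g + 1)) - f (twog_E N b h g)) else 0) +
      (if 0 < h ∧ 0 < g then r b * (f (Rm b (twog_E N b h g)) - f (twog_E N b h g)) else 0) +
      (if 0 < h then l (b - h) * (f (twog_E N b (h - 1) g) - f (twog_E N b h g)) else 0) +
      (if 0 < g then l (b + g) * (f (twog_E N b h (g - 1)) - f (twog_E N b h g)) else 0) +
      (if h = 0 ∧ g = 0 then l b * (f (bot N b) - f (twog_E N b h g)) else 0)) / (2 * N) := by
  rw [stp_open]
  congr 2
  have key : ∀ x ∈ full N, (r x * (f (Rm x (twog_E N b h g)) - f (twog_E N b h g)) +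
      l x * (f (Lm x (twog_E N b h g)) - f (twog_E N b h g))) =
      (if x = b - 1 - h then (if h + 1 < b then r (b - 1 - h) * (f (twog_E N b (h + 1) g) - f (twog_E N b h g)) else 0) else 0) +
      (if x = b + g + 1 then r (b + g + 1) * (f (twog_E N b h (g + 1)) - f (twog_E N b h g)) else 0) +
      (if x = b then (if 0 < h ∧ 0 < g then r b * (f (Rm b (twog_E N b h g)) - f (twog_E N b h g)) else 0) else 0) +
      (if x = b - h then (if 0 < h then l (b - h) * (f (twog_E N b (h - 1) g) - f (twog_E N b h g)) else 0) else 0) +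
      (if x = b + g then (if 0 < g then l (b + g) * (f (twog_E N b h (g - 1)) - f (twog_E N b h g)) else 0) else 0) +
      (if x = b then (if h = 0 ∧ g = 0 then l b * (f (bot N b) - f (twog_E N b h g)) else 0) else 0) := by
    intro x hx
    rw [full, Finset.mem_Ico] at hx
    obtain ⟨hx1, hxN⟩ := hx
    have hR : r x * (f (Rm x (twog_E N b h g)) - f (twog_E N b h g)) =
      (if x = b - 1 - h then (if h + 1 < b then r (b - 1 - h) * (f (twog_E N b (h + 1) g) - f (twog_E N b h g)) else 0) else 0) +
      (if x = b + g + 1 then r (b + g + 1) * (f (twog_E N b h (g + 1)) - f (twog_E N b h g)) else 0) +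
      (if x = b then (if 0 < h ∧ 0 < g then r b * (f (Rm b (twog_E N b h g)) - f (twog_E N b h g)) else 0) else 0) := by
      by_cases c1 : x + h + 1 = b
      · rw [twog_R1 hx1 hxN hbg hh c1, if_pos (by omega), if_pos (by omega), if_neg (by omega),
          if_neg (by omega)]
        have : b - 1 - h = x := by omega
        rw [this]; ring
      · by_cases c2 : x = b + g + 1
        · rw [twog_R2 hx1 hxN hbg hh c2, if_neg (by omega), if_pos c2, if_neg (by omega), c2]
          ring
        · by_cases c3 : x = b ∧ 0 < h ∧ 0 < g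
          · rw [if_neg (by omega), if_neg (by omega), if_pos c3.1, if_pos c3.2, c3.1]
            ring
          · rw [twog_R3 hx1 hxN hh c1 c2 c3, if_neg (by omega), if_neg (by omega)]
            by_cases c4 : x = b
            · rw [if_pos c4, if_neg (by tauto)]; ring
            · rw [if_neg c4]; ring
    have hL : l x * (f (Lm x (twog_E N b h g)) - f (twog_E N b h g)) =
      (if x = b - h then (if 0 < h then l (b - h) * (f (twog_E N b (h - 1) g) - f (twog_E N b h g)) else 0) else 0) +
      (if x = b + g then (if 0 < g then l (b + g) * (f (twog_E N b h (g - 1)) - f (twog_E N b h g)) else 0) else 0) +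
      (if x = b then (if h = 0 ∧ g = 0 then l b * (f (bot N b) - f (twog_E N b h g)) else 0) else 0) := by
      by_cases c1 : x + h = b ∧ 0 < h
      · rw [twog_L1 hx1 hxN hbg hh c1.1 c1.2, if_pos (by omega), if_pos c1.2, if_neg (by omega),
          if_neg (by omega)]
        have : b - h = x := by omega
        rw [this]; ring
      · by_cases c2 : x = b + g ∧ 0 < g
        · rw [twog_L2 hx1 hxN hbg hh c2.1 c2.2, if_neg (by omega), if_pos c2.1, if_pos c2.2,
            if_neg (by omega), c2.1]
          ring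
        · by_cases c3 : x = b ∧ h = 0 ∧ g = 0
          · obtain ⟨c3, c4, c5⟩ := c3
            subst c4 c5
            rw [twog_L3 hx1 hxN hb1 c3, if_pos (by omega), if_neg (by omega), if_pos (by omega),
              if_neg (by omega), if_pos c3, if_pos ⟨rfl, rfl⟩, c3]
            ring
          · rw [twog_L4 hx1 hxN hbg hh c1 c2 c3]
            have e1 : (if x = b - h then (if 0 < h then l (b - h) * (f (twog_E N b (h - 1) g) - f (twog_E N b h g)) else 0) else 0) = 0 := by
              by_cases d1 : x = b - h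
              · rw [if_pos d1, if_neg (by omega)]
              · rw [if_neg d1]
            have e2 : (if x = b + g then (if 0 < g then l (b + g) * (f (twog_E N b h (g - 1)) - f (twog_E N b h g)) else 0) else 0) = 0 := by
              by_cases d1 : x = b + g
              · rw [if_pos d1, if_neg (by tauto)]
              · rw [if_neg d1]
            have e3 : (if x = b then (if h = 0 ∧ g = 0 then l b * (f (bot N b) - f (twog_E N b h g)) else 0) else 0) = 0 := by
              by_cases d1 : x = b
              · rw [if_pos d1, if_neg (by tauto)]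
              · rw [if_neg d1]
            rw [e1, e2, e3]; ring
    rw [hR, hL]; ring
  rw [Finset.sum_congr rfl key]
  simp only [Finset.sum_add_distrib, Finset.sum_ite_eq', full, Finset.mem_Ico]
  have i1 : (if 1 ≤ b - 1 - h ∧ b - 1 - h < N then (if h + 1 < b then r (b - 1 - h) * (f (twog_E N b (h + 1) g) - f (twog_E N b h g)) else 0) else 0) =
      (if h + 1 < b then r (b - 1 - h) * (f (twog_E N b (h + 1) g) - f (twog_E N b h g)) else 0) := by
    by_cases d : h + 1 < b
    · rw [if_pos d, if_pos (by omega)]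
    · rw [if_neg d, ite_self]
  have i2 : (if 1 ≤ b + g + 1 ∧ b + g + 1 < N then r (b + g + 1) * (f (twog_E N b h (g + 1)) - f (twog_E N b h g)) else 0) =
      (if b + g + 1 < N then r (b + g + 1) * (f (twog_E N b h (g + 1)) - f (twog_E N b h g)) else 0) := by
    by_cases d : b + g + 1 < N
    · rw [if_pos d, if_pos (by omega)]
    · rw [if_neg d, if_neg (by omega)]
  have i3 : (1 ≤ b ∧ b < N) := by omega
  have i4 : (1 ≤ b - h ∧ b - h < N) := by omega
  have i5 : (1 ≤ b + g ∧ b + g < N) := by omega
  rw [i1, i2, if_pos i3, if_pos i4, if_pos i5, if_pos i3]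

/-! ### crude bound -/

theorem twog_crude {N b : ℕ} {r l : ℕ → ℝ} (hA : Adm N r l) (hb1 : 1 ≤ b) (hbN : b < N) (i : ℕ)
    (η : Cfg N) : ev r l (fun _ => full N) i (fun ξ => (ht ξ b : ℝ)) η ≤
      (ht η b : ℝ) + r b * i / (2 * N) := by
  obtain ⟨ra, rb, la, lb⟩ := hA b hb1 hbN
  have hN : (0 : ℝ) < 2 * N := by
    have : (0 : ℝ) < N := by exact_mod_cast (by omega : 0 < N)
    linarith
  induction i generalizing η with
  | zero => simp
  | succ i ih =>
    rw [ev_succ]
    have h1 : stp r l (full N) (ev r l (fun _ => full N) i (fun ξ => (ht ξ b : ℝ))) η ≤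
        stp r l (full N) (fun ξ => (ht ξ b : ℝ) + r b * i / (2 * N)) η :=
      stp_mono hA (fun ξ => ih ξ) η
    refine h1.trans ?_
    rw [stp_open]
    have h2 : ∑ x ∈ full N, (r x * ((ht (Rm x η) b : ℝ) + r b * i / (2 * N) - ((ht η b : ℝ) + r b * i / (2 * N))) +
        l x * ((ht (Lm x η) b : ℝ) + r b * i / (2 * N) - ((ht η b : ℝ) + r b * i / (2 * N)))) ≤ r b := by
      rw [Finset.sum_eq_single b]
      · have a1 : (ht (Rm b η) b : ℝ) ≤ (ht η b : ℝ) + 1 := by exact_mod_cast ht_Rm_le η b b
        have a2 : (ht (Lm b η) b : ℝ) ≤ (ht η b : ℝ) := by exact_mod_cast ht_Lm_le η b b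
        nlinarith
      · intro x _ hx
        rw [ht_Rm_ne η (Ne.symm hx), ht_Lm_ne η (Ne.symm hx)]; ring
      · intro h
        exfalso; apply h
        rw [full, Finset.mem_Ico]
        exact ⟨hb1, hbN⟩
    have h3 := div_le_div_of_nonneg_right h2 hN.le
    push_cast
    have h4 : r b * ((i : ℝ) + 1) / (2 * N) = r b * i / (2 * N) + r b / (2 * N) := by ring
    rw [h4]
    linarith

theorem twog_ht {N b h g : ℕ} (hh : h < b) (hbg : b + g < N) : ht (twog_E N b h g) b = 1 := by
  unfold ht
  rw [Finset.sum_eq_single (b + g)]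
  · rw [if_pos]
    rw [twog_occ]; omega
  · intro x hx hx'
    rw [Finset.mem_Ico] at hx
    rw [if_neg]
    rw [twog_occ]; omega
  · intro h'
    exfalso; apply h'
    rw [Finset.mem_Ico]; omega

/-! ### the comparison -/

/-- clamped two-body function plus error -/
noncomputable def twog_V (N : ℕ) (r l : ℕ → ℝ) (b q : ℕ) (ep : ℝ) (i h g : ℕ) : ℝ :=
  tb N r l b q i (min h (q - 1)) (min g (q - 1)) + (3 * (r b * i / (2 * N)) + ((i : ℝ) / (2 * N)) ^ 2 * ep)

theorem twog_claim {N : ℕ} {r l : ℕ → ℝ} {b q m : ℕ} {ep : ℝ} (hT : ST_TBN) (hA : Adm N r l)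
    (hP : Pos N l) (hq : 2 ≤ q) (hqb : q ≤ b) (hbq : b + q ≤ N) (hep : 0 ≤ ep)
    (h1 : RR r l (b + 1 - q) (b - 1) ≤ ep) (h2 : RR r l b (b + q - 2) ≤ ep)
    (hm : r b * m ≤ 2 * N) : ∀ i, i ≤ m → ∀ h g, h < b → b + g < N →
    ev r l (fun _ => full N) i (fun ξ => (ht ξ b : ℝ)) (twog_E N b h g) ≤
      twog_V N r l b q ep i h g := by
  have hN0 : (0 : ℝ) < N := by exact_mod_cast (by omega : 0 < N)
  have hN4 : (4 : ℝ) ≤ N := by exact_mod_cast (by omega : 4 ≤ N)
  have hN : (0 : ℝ) < 2 * N := by linarith
  obtain ⟨rb0, rb1, lb0, lb1⟩ := hA b (by omega) (by omega)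
  intro i
  induction i with
  | zero =>
    intro _ h g hh hg
    rw [ev_zero, twog_ht hh hg]
    simp [twog_V, tb]
  | succ i ih =>
    intro him h g hh hg
    have ih' := ih (by omega)
    rw [ev_succ]
    set u := ev r l (fun _ => full N) i (fun ξ : Cfg N => (ht ξ b : ℝ)) with hu
    have hua : ∀ η : Cfg N, u η ≤ (ht η b : ℝ) + r b * i / (2 * N) := fun η =>
      twog_crude hA (by omega) (by omega) i η
    have hu0 : ∀ η : Cfg N, 0 ≤ u η := fun η => ev_nonneg hA (fun ξ => by positivity) _ _ _
    -- the quantity x = r b i / 2N <= 1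
    have hx1 : r b * i / (2 * N) ≤ 1 := by
      rw [div_le_one hN]
      have : (i : ℝ) ≤ m := by exact_mod_cast (by omega : i ≤ m)
      nlinarith
    have hx0 : 0 ≤ r b * i / (2 * N) := by positivity
    rw [twog_step r l (by omega) hh hg u]
    set E : ℝ := 3 * (r b * i / (2 * N)) + ((i : ℝ) / (2 * N)) ^ 2 * ep with hE
    have hE0 : 0 ≤ E := by positivity
    -- slack
    obtain ⟨D, hD⟩ : ∃ D : ℝ, D = twog_V N r l b q ep i h g - u (twog_E N b h g) := ⟨_, rfl⟩
    have hD0 : 0 ≤ D := by rw [hD]; linarith [ih' h g hh hg]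
    have hT' := hT N r l b q hA hP (by omega) hqb hbq
    -- terms
    have t1 : (if h + 1 < b then r (b - 1 - h) * (u (twog_E N b (h + 1) g) - u (twog_E N b h g)) else 0)
        ≤ (if min h (q - 1) + 1 < q then r (b - 1 - min h (q - 1)) *
            (tb N r l b q i (min h (q - 1) + 1) (min g (q - 1)) -
              tb N r l b q i (min h (q - 1)) (min g (q - 1))) else 0) + D := by
      by_cases c : h + 1 < b
      · rw [if_pos c]
        obtain ⟨a1, a2, _, _⟩ := hA (b - 1 - h) (by omega) (by omega)
        have a3 := ih' (h + 1) g c hg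
        have a4 : u (twog_E N b (h + 1) g) - u (twog_E N b h g) ≤
            (twog_V N r l b q ep i (h + 1) g - twog_V N r l b q ep i h g) + D := by
          rw [hD]; linarith
        have a5 : r (b - 1 - h) * (u (twog_E N b (h + 1) g) - u (twog_E N b h g)) ≤
            r (b - 1 - h) * ((twog_V N r l b q ep i (h + 1) g - twog_V N r l b q ep i h g) + D) :=
          mul_le_mul_of_nonneg_left a4 a1.le
        have a6 : r (b - 1 - h) * D ≤ D := by nlinarith
        have a7 : r (b - 1 - h) * (twog_V N r l b q ep i (h + 1) g - twog_V N r l b q ep i h g) =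
            (if min h (q - 1) + 1 < q then r (b - 1 - min h (q - 1)) *
            (tb N r l b q i (min h (q - 1) + 1) (min g (q - 1)) -
              tb N r l b q i (min h (q - 1)) (min g (q - 1))) else 0) := by
          unfold twog_V
          by_cases d : h + 1 < q
          · have e1 : min h (q - 1) = h := by omega
            have e2 : min (h + 1) (q - 1) = h + 1 := by omega
            rw [e1, e2, if_pos d]; ring
          · have e1 : min h (q - 1) = q - 1 := by omega
            have e2 : min (h + 1) (q - 1) = q - 1 := by omega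
            rw [e1, e2, if_neg (by omega)]; ring
        rw [mul_add, a7] at a5
        linarith
      · rw [if_neg c]
        have d : ¬ (min h (q - 1) + 1 < q) := by omega
        rw [if_neg d]; linarith
    have t2 : (if b + g + 1 < N then r (b + g + 1) * (u (twog_E N b h (g + 1)) - u (twog_E N b h g)) else 0)
        ≤ (if min g (q - 1) + 1 < q then r (b + min g (q - 1) + 1) *
            (tb N r l b q i (min h (q - 1)) (min g (q - 1) + 1) -
              tb N r l b q i (min h (q - 1)) (min g (q - 1))) else 0) + D := by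
      by_cases c : b + g + 1 < N
      · rw [if_pos c]
        obtain ⟨a1, a2, _, _⟩ := hA (b + g + 1) (by omega) (by omega)
        have a3 := ih' h (g + 1) hh c
        have a4 : u (twog_E N b h (g + 1)) - u (twog_E N b h g) ≤
            (twog_V N r l b q ep i h (g + 1) - twog_V N r l b q ep i h g) + D := by
          rw [hD]; linarith
        have a5 : r (b + g + 1) * (u (twog_E N b h (g + 1)) - u (twog_E N b h g)) ≤
            r (b + g + 1) * ((twog_V N r l b q ep i h (g + 1) - twog_V N r l b q ep i h g) + D) :=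
          mul_le_mul_of_nonneg_left a4 a1.le
        have a6 : r (b + g + 1) * D ≤ D := by nlinarith
        have a7 : r (b + g + 1) * (twog_V N r l b q ep i h (g + 1) - twog_V N r l b q ep i h g) =
            (if min g (q - 1) + 1 < q then r (b + min g (q - 1) + 1) *
            (tb N r l b q i (min h (q - 1)) (min g (q - 1) + 1) -
              tb N r l b q i (min h (q - 1)) (min g (q - 1))) else 0) := by
          unfold twog_V
          by_cases d : g + 1 < q
          · have e1 : min g (q - 1) = g := by omega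
            have e2 : min (g + 1) (q - 1) = g + 1 := by omega
            rw [e1, e2, if_pos d]; ring
          · have e1 : min g (q - 1) = q - 1 := by omega
            have e2 : min (g + 1) (q - 1) = q - 1 := by omega
            rw [e1, e2, if_neg (by omega)]; ring
        rw [mul_add, a7] at a5
        linarith
      · rw [if_neg c]
        have d : ¬ (min g (q - 1) + 1 < q) := by omega
        rw [if_neg d]; linarith
    have t3 : (if 0 < h ∧ 0 < g then r b * (u (Rm b (twog_E N b h g)) - u (twog_E N b h g)) else 0) ≤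
        3 * r b := by
      by_cases c : 0 < h ∧ 0 < g
      · rw [if_pos c]
        have a1 := hua (Rm b (twog_E N b h g))
        have a2 : (ht (Rm b (twog_E N b h g)) b : ℝ) ≤ 2 := by
          have := ht_Rm_le (twog_E N b h g) b b
          rw [twog_ht hh hg] at this
          exact_mod_cast this
        have a3 := hu0 (twog_E N b h g)
        nlinarith
      · rw [if_neg c]; linarith
    have t4 : (if 0 < h then l (b - h) * (u (twog_E N b (h - 1) g) - u (twog_E N b h g)) else 0)
        ≤ (if 0 < min h (q - 1) then l (b - min h (q - 1)) *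
            (tb N r l b q i (min h (q - 1) - 1) (min g (q - 1)) -
              tb N r l b q i (min h (q - 1)) (min g (q - 1))) else 0) + D +
          (i : ℝ) / (2 * N) * ep := by
      have hiep : 0 ≤ (i : ℝ) / (2 * N) * ep := by positivity
      by_cases c : 0 < h
      · rw [if_pos c, if_pos (by omega : 0 < min h (q - 1))]
        obtain ⟨_, _, a1, a2⟩ := hA (b - h) (by omega) (by omega)
        have a3 := ih' (h - 1) g (by omega) hg
        have a4 : u (twog_E N b (h - 1) g) - u (twog_E N b h g) ≤
            (twog_V N r l b q ep i (h - 1) g - twog_V N r l b q ep i h g) + D := by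
          rw [hD]; linarith
        have a5 : l (b - h) * (u (twog_E N b (h - 1) g) - u (twog_E N b h g)) ≤
            l (b - h) * ((twog_V N r l b q ep i (h - 1) g - twog_V N r l b q ep i h g) + D) :=
          mul_le_mul_of_nonneg_left a4 a1
        have a6 : l (b - h) * D ≤ D := by nlinarith
        have a7 : l (b - h) * (twog_V N r l b q ep i (h - 1) g - twog_V N r l b q ep i h g) ≤
            l (b - min h (q - 1)) *
            (tb N r l b q i (min h (q - 1) - 1) (min g (q - 1)) -
              tb N r l b q i (min h (q - 1)) (min g (q - 1))) + (i : ℝ) / (2 * N) * ep := by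
          unfold twog_V
          by_cases d : h < q
          · have e1 : min h (q - 1) = h := by omega
            have e2 : min (h - 1) (q - 1) = h - 1 := by omega
            rw [e1, e2]
            have : l (b - h) * (tb N r l b q i (h - 1) (min g (q - 1)) + (3 * (r b * i / (2 * N)) +
              ((i : ℝ) / (2 * N)) ^ 2 * ep) - (tb N r l b q i h (min g (q - 1)) +
              (3 * (r b * i / (2 * N)) + ((i : ℝ) / (2 * N)) ^ 2 * ep))) =
              l (b - h) * (tb N r l b q i (h - 1) (min g (q - 1)) -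
                tb N r l b q i h (min g (q - 1))) := by ring
            rw [this]; linarith
          · have e1 : min h (q - 1) = q - 1 := by omega
            have e2 : min (h - 1) (q - 1) = q - 1 := by omega
            rw [e1, e2]
            obtain ⟨_, _, b1, b2⟩ := hA (b - (q - 1)) (by omega) (by omega)
            obtain ⟨c1, c2, c3, c4⟩ := hT' i (q - 1 - 1) (min g (q - 1)) (by omega) (by omega)
            obtain ⟨d1, d2, d3, d4⟩ := hT' i (q - 1) (min g (q - 1)) (by omega) (by omega)
            have e3 : b - 1 - (q - 1 - 1) = b + 1 - q := by omega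
            rw [e3] at c3
            have c5 : (i : ℝ) / (2 * N) * RR r l (b + 1 - q) (b - 1) ≤ (i : ℝ) / (2 * N) * ep :=
              mul_le_mul_of_nonneg_left h1 (by positivity)
            have c6 : -((i : ℝ) / (2 * N) * ep) ≤ tb N r l b q i (q - 1 - 1) (min g (q - 1)) -
                tb N r l b q i (q - 1) (min g (q - 1)) := by linarith
            nlinarith
        rw [mul_add] at a5
        linarith
      · rw [if_neg c, if_neg (by omega)]; linarith
    have t5 : (if 0 < g then l (b + g) * (u (twog_E N b h (g - 1)) - u (twog_E N b h g)) else 0)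
        ≤ (if 0 < min g (q - 1) then l (b + min g (q - 1)) *
            (tb N r l b q i (min h (q - 1)) (min g (q - 1) - 1) -
              tb N r l b q i (min h (q - 1)) (min g (q - 1))) else 0) + D +
          (i : ℝ) / (2 * N) * ep := by
      have hiep : 0 ≤ (i : ℝ) / (2 * N) * ep := by positivity
      by_cases c : 0 < g
      · rw [if_pos c, if_pos (by omega : 0 < min g (q - 1))]
        obtain ⟨_, _, a1, a2⟩ := hA (b + g) (by omega) (by omega)
        have a3 := ih' h (g - 1) hh (by omega)
        have a4 : u (twog_E N b h (g - 1)) - u (twog_E N b h g) ≤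
            (twog_V N r l b q ep i h (g - 1) - twog_V N r l b q ep i h g) + D := by
          rw [hD]; linarith
        have a5 : l (b + g) * (u (twog_E N b h (g - 1)) - u (twog_E N b h g)) ≤
            l (b + g) * ((twog_V N r l b q ep i h (g - 1) - twog_V N r l b q ep i h g) + D) :=
          mul_le_mul_of_nonneg_left a4 a1
        have a6 : l (b + g) * D ≤ D := by nlinarith
        have a7 : l (b + g) * (twog_V N r l b q ep i h (g - 1) - twog_V N r l b q ep i h g) ≤
            l (b + min g (q - 1)) *
            (tb N r l b q i (min h (q - 1)) (min g (q - 1) - 1) -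
              tb N r l b q i (min h (q - 1)) (min g (q - 1))) + (i : ℝ) / (2 * N) * ep := by
          unfold twog_V
          by_cases d : g < q
          · have e1 : min g (q - 1) = g := by omega
            have e2 : min (g - 1) (q - 1) = g - 1 := by omega
            rw [e1, e2]
            have : l (b + g) * (tb N r l b q i (min h (q - 1)) (g - 1) + (3 * (r b * i / (2 * N)) +
              ((i : ℝ) / (2 * N)) ^ 2 * ep) - (tb N r l b q i (min h (q - 1)) g +
              (3 * (r b * i / (2 * N)) + ((i : ℝ) / (2 * N)) ^ 2 * ep))) =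
              l (b + g) * (tb N r l b q i (min h (q - 1)) (g - 1) -
                tb N r l b q i (min h (q - 1)) g) := by ring
            rw [this]; linarith
          · have e1 : min g (q - 1) = q - 1 := by omega
            have e2 : min (g - 1) (q - 1) = q - 1 := by omega
            rw [e1, e2]
            obtain ⟨_, _, b1, b2⟩ := hA (b + (q - 1)) (by omega) (by omega)
            obtain ⟨c1, c2, c3, c4⟩ := hT' i (min h (q - 1)) (q - 1 - 1) (by omega) (by omega)
            obtain ⟨d1, d2, d3, d4⟩ := hT' i (min h (q - 1)) (q - 1) (by omega) (by omega)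
            have e3 : b + (q - 1 - 1) = b + q - 2 := by omega
            rw [e3] at c4
            have c5 : (i : ℝ) / (2 * N) * RR r l b (b + q - 2) ≤ (i : ℝ) / (2 * N) * ep :=
              mul_le_mul_of_nonneg_left h2 (by positivity)
            have c6 : -((i : ℝ) / (2 * N) * ep) ≤ tb N r l b q i (min h (q - 1)) (q - 1 - 1) -
                tb N r l b q i (min h (q - 1)) (q - 1) := by linarith
            nlinarith
        rw [mul_add] at a5
        linarith
      · rw [if_neg c, if_neg (by omega)]; linarith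
    have t6 : (if h = 0 ∧ g = 0 then l b * (u (bot N b) - u (twog_E N b h g)) else 0) ≤
        - (if min h (q - 1) = 0 ∧ min g (q - 1) = 0 then l b *
          tb N r l b q i (min h (q - 1)) (min g (q - 1)) else 0) + D := by
      by_cases c : h = 0 ∧ g = 0
      · rw [if_pos c, if_pos (by omega)]
        have a1 := hua (bot N b)
        rw [ht_bot (by omega : b ≤ N)] at a1
        simp only [Nat.sub_self, Nat.cast_zero, zero_add] at a1
        have a2 : u (bot N b) ≤ E := by
          have : 0 ≤ ((i : ℝ) / (2 * N)) ^ 2 * ep := by positivity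
          rw [hE]; linarith
        have a3 : u (bot N b) - u (twog_E N b h g) ≤
            - tb N r l b q i (min h (q - 1)) (min g (q - 1)) + D := by
          rw [hD]; unfold twog_V; linarith
        have a4 : l b * (u (bot N b) - u (twog_E N b h g)) ≤
            l b * (- tb N r l b q i (min h (q - 1)) (min g (q - 1)) + D) :=
          mul_le_mul_of_nonneg_left a3 lb0
        have a5 : l b * D ≤ D := by nlinarith
        linarith
      · rw [if_neg c, if_neg (by omega)]; linarith
    have hUs : tb N r l b q (i + 1) (min h (q - 1)) (min g (q - 1)) =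
        tb N r l b q i (min h (q - 1)) (min g (q - 1)) + (1 / (2 * N)) * (
        (if min h (q - 1) + 1 < q then r (b - 1 - min h (q - 1)) *
            (tb N r l b q i (min h (q - 1) + 1) (min g (q - 1)) -
              tb N r l b q i (min h (q - 1)) (min g (q - 1))) else 0) +
        (if 0 < min h (q - 1) then l (b - min h (q - 1)) *
            (tb N r l b q i (min h (q - 1) - 1) (min g (q - 1)) -
              tb N r l b q i (min h (q - 1)) (min g (q - 1))) else 0) +
        (if min g (q - 1) + 1 < q then r (b + min g (q - 1) + 1) *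
            (tb N r l b q i (min h (q - 1)) (min g (q - 1) + 1) -
              tb N r l b q i (min h (q - 1)) (min g (q - 1))) else 0) +
        (if 0 < min g (q - 1) then l (b + min g (q - 1)) *
            (tb N r l b q i (min h (q - 1)) (min g (q - 1) - 1) -
              tb N r l b q i (min h (q - 1)) (min g (q - 1))) else 0) -
        (if min h (q - 1) = 0 ∧ min g (q - 1) = 0 then l b *
          tb N r l b q i (min h (q - 1)) (min g (q - 1)) else 0)) := by
      rw [tb]
    have hsum := add_le_add (add_le_add (add_le_add (add_le_add (add_le_add t1 t2) t3) t4) t5) t6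
    have hdiv := div_le_div_of_nonneg_right hsum hN.le
    have hu1 : u (twog_E N b h g) = tb N r l b q i (min h (q - 1)) (min g (q - 1)) + E - D := by
      rw [hD]; unfold twog_V; ring
    have hDN : 5 * D / (2 * N) ≤ D := by
      rw [div_le_iff₀ hN]; nlinarith
    have hEs : E + (3 * r b + 2 * ((i : ℝ) / (2 * N) * ep)) / (2 * N) ≤
        3 * (r b * ((i + 1 : ℕ) : ℝ) / (2 * N)) + (((i + 1 : ℕ) : ℝ) / (2 * N)) ^ 2 * ep := by
      rw [hE]
      push_cast
      have : 3 * (r b * ((i : ℝ) + 1) / (2 * N)) + (((i : ℝ) + 1) / (2 * N)) ^ 2 * ep -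
        (3 * (r b * i / (2 * N)) + ((i : ℝ) / (2 * N)) ^ 2 * ep +
          (3 * r b + 2 * ((i : ℝ) / (2 * N) * ep)) / (2 * N)) = (1 / (2 * N)) ^ 2 * ep := by
        field_simp; ring
      have h3 : 0 ≤ (1 / (2 * (N : ℝ))) ^ 2 * ep := by positivity
      linarith
    have hV : twog_V N r l b q ep (i + 1) h g = tb N r l b q (i + 1) (min h (q - 1)) (min g (q - 1)) +
        (3 * (r b * ((i + 1 : ℕ) : ℝ) / (2 * N)) + (((i + 1 : ℕ) : ℝ) / (2 * N)) ^ 2 * ep) := rfl
    rw [hV, hUs, hu1]
    rw [hu1] at hdiv
    refine le_trans (add_le_add_right hdiv _) ?_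
    refine le_trans ?_ (add_le_add_right hEs _)
    refine le_trans ?_ (le_of_eq (add_assoc _ _ _))
    have hfin : ∀ (X A1 A2 A3 A4 A5 e : ℝ),
        X + E - D + (A1 + D + (A3 + D) + 3 * r b + (A2 + D + e) + (A4 + D + e) + (-A5 + D)) / (2 * N) =
        X + (1 / (2 * N)) * (A1 + A2 + A3 + A4 - A5) + E + (3 * r b + 2 * e) / (2 * N) +
          (5 * D / (2 * N) - D) := by
      intro X A1 A2 A3 A4 A5 e
      ring
    rw [hfin]
    linarith

theorem st_TWOG (hT : ST_TBN) : ST_TWOG := by
  intro N r l b q m ep hA hP hq hqb hbq hep h1 h2 hm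
  have hN0 : (0 : ℝ) < N := by exact_mod_cast (by omega : 0 < N)
  have hN : (0 : ℝ) < 2 * N := by linarith
  obtain ⟨rb0, rb1, lb0, lb1⟩ := hA b (by omega) (by omega)
  have key : ∀ i, i ≤ m → ev r l (fun _ => full N) i (fun ξ : Cfg N => (ht ξ b : ℝ)) (bot N b) ≤
      r b * ((∑ j ∈ Finset.range i, tb N r l b q j 0 0) / (2 * N)) +
        3 / 2 * (r b * i / (2 * N)) ^ 2 + (r b * i / (2 * N)) * ((i : ℝ) / (2 * N)) ^ 2 * ep := by
    intro i
    induction i with
    | zero =>
      intro _
      rw [ev_zero, ht_bot (by omega : b ≤ N)]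
      simp
    | succ i ih =>
      intro him
      have ih' := ih (by omega)
      rw [ev_succ, twog_step_bot r l (by omega) (by omega)]
      have a1 := twog_claim hT hA hP hq hqb hbq hep h1 h2 hm i (by omega) 0 0 (by omega) (by omega)
      have a2 : 0 ≤ ev r l (fun _ => full N) i (fun ξ : Cfg N => (ht ξ b : ℝ)) (bot N b) :=
        ev_nonneg hA (fun ξ => by positivity) _ _ _
      unfold twog_V at a1
      simp only [Nat.zero_min] at a1
      have a3 : r b * (ev r l (fun _ => full N) i (fun ξ : Cfg N => (ht ξ b : ℝ)) (twog_E N b 0 0) -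
          ev r l (fun _ => full N) i (fun ξ : Cfg N => (ht ξ b : ℝ)) (bot N b)) / (2 * N) ≤
          r b * (tb N r l b q i 0 0 + (3 * (r b * i / (2 * N)) + ((i : ℝ) / (2 * N)) ^ 2 * ep)) /
            (2 * N) := by
        apply div_le_div_of_nonneg_right _ hN.le
        apply mul_le_mul_of_nonneg_left _ rb0.le
        linarith
      rw [Finset.sum_range_succ]
      push_cast
      have hi0 : (0 : ℝ) ≤ i := Nat.cast_nonneg i
      have e1 : r b * ((∑ j ∈ Finset.range i, tb N r l b q j 0 0 + tb N r l b q i 0 0) / (2 * N)) +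
          3 / 2 * (r b * ((i : ℝ) + 1) / (2 * N)) ^ 2 +
          (r b * ((i : ℝ) + 1) / (2 * N)) * (((i : ℝ) + 1) / (2 * N)) ^ 2 * ep -
          (r b * ((∑ j ∈ Finset.range i, tb N r l b q j 0 0) / (2 * N)) +
          3 / 2 * (r b * i / (2 * N)) ^ 2 + (r b * i / (2 * N)) * ((i : ℝ) / (2 * N)) ^ 2 * ep +
          r b * (tb N r l b q i 0 0 + (3 * (r b * i / (2 * N)) + ((i : ℝ) / (2 * N)) ^ 2 * ep)) /
            (2 * N)) = 3 / 2 * (r b / (2 * N)) ^ 2 +
          (r b / (2 * N)) * (1 / (2 * N)) ^ 2 * (2 * (i : ℝ) ^ 2 + 3 * i + 1) * ep := by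
        field_simp; ring
      have e2 : 0 ≤ 3 / 2 * (r b / (2 * N)) ^ 2 +
          (r b / (2 * N)) * (1 / (2 * N)) ^ 2 * (2 * (i : ℝ) ^ 2 + 3 * i + 1) * ep := by positivity
      linarith
  have h3 := key m le_rfl
  unfold kap
  have hx1 : r b * m / (2 * N) ≤ 1 := by rw [div_le_one hN]; exact hm
  have hx0 : 0 ≤ r b * m / (2 * N) := by positivity
  have hs : 0 ≤ ((m : ℝ) / (2 * N)) ^ 2 * ep := by positivity
  have h4 : (r b * m / (2 * N)) * ((m : ℝ) / (2 * N)) ^ 2 * ep ≤ ((m : ℝ) / (2 * N)) ^ 2 * ep := by
    rw [mul_assoc]; nlinarith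
  have h5 : 0 ≤ (r b * m / (2 * N)) ^ 2 := by positivity
  linarith

end Pool.Agent.Helper98.EX
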